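import Pool.Agent.Y990.PL.Stm
import Pool.Agent.W45.PC.PT1
import Pool.Agent.W975.PC.GR1

/-!
# The differential inequality of Duminil-Copin and Tassion for site-bond percolation
-/

set_option autoImplicit false

open MeasureTheory Set

namespace Pool.Agent.Y641.PL

open Pool.Agent.W783.PC Pool.Agent.W424.PC Pool.Agent.Y990.PL

variable {n : ℕ} {E : Set (Sym2 (V n))} {ω ω' : Cfg n} {R R' T w c : Set (V n)} {x y v x0 : V n}

lemma G_mono (h : R ⊆ R') : G E ω R ≤ G E ω R' := fun _ _ hxy =>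
  ⟨hxy.1, h hxy.2.1, h hxy.2.2.1, hxy.2.2.2⟩

lemma G_le (h : ∀ c, ω c = true → ω' c = true) : G E ω R ≤ G E ω' R := fun _ _ hxy =>
  ⟨hxy.1, hxy.2.1, hxy.2.2.1, hxy.2.2.2.1, h _ hxy.2.2.2.2.1, h _ hxy.2.2.2.2.2.1,
    h _ hxy.2.2.2.2.2.2⟩

lemma reach_mem (h : (G E ω R).Reachable x y) (hx : x ∈ R) : y ∈ R := by
  rw [SimpleGraph.reachable_iff_reflTransGen] at h
  induction h with
  | refl => exact hx
  | tail _ h _ => exact h.2.2.1

lemma reach_open (h : (G E ω R).Reachable x y) (hx : ω (Sum.inl x) = true) :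
    ω (Sum.inl y) = true := by
  rw [SimpleGraph.reachable_iff_reflTransGen] at h
  induction h with
  | refl => exact hx
  | tail _ h _ => exact h.2.2.2.2.2.1

lemma upd_le (e : Ix n) (ω : Cfg n) : ∀ c, ω c = true → upd e true ω c = true := by
  intro c hc
  by_cases h : c = e
  · rw [h, upd_self]
  · rw [upd_ne h, hc]

/-- open vertices of `R` connected to `T` -/
def CC (E : Set (Sym2 (V n))) (R T : Set (V n)) (ω : Cfg n) : Set (V n) :=
  {v | v ∈ R ∧ ω (Sum.inl v) = true ∧ ∃ y ∈ T, (G E ω R).Reachable v y}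

/-- the explored sites -/
def WW (E : Set (Sym2 (V n))) (R T : Set (V n)) (ω : Cfg n) : Set (V n) :=
  {v | v ∈ R ∧ (v ∈ T ∨ v ∈ CC E R T ω ∨
    ∃ u ∈ CC E R T ω, s(v, u) ∈ E ∧ ω (Sum.inr s(v, u)) = true)}

/-- the explored coordinates -/
def DW (R w c : Set (V n)) : Set (Ix n) :=
  {i | (∃ v ∈ w, i = Sum.inl v) ∨ ∃ v ∈ R, ∃ u ∈ c, i = Sum.inr s(v, u)}

lemma CC_sub_WW : CC E R T ω ⊆ WW E R T ω := fun _ h => ⟨h.1, Or.inr (Or.inl h)⟩

lemma CC_step (hu : x ∈ CC E R T ω) (hv : v ∈ R) (ho : ω (Sum.inl v) = true)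
    (hE : s(v, x) ∈ E) (hb : ω (Sum.inr s(v, x)) = true) : v ∈ CC E R T ω := by
  by_cases hvx : v = x
  · rw [hvx]; exact hu
  · obtain ⟨h1, h2, y, hy, hr⟩ := hu
    exact ⟨hv, ho, y, hy, (SimpleGraph.Adj.reachable
      (⟨hvx, hv, h1, hE, ho, h2, hb⟩ : (G E ω R).Adj v x)).trans hr⟩

lemma dep_EC (hT : T ⊆ R) :
    DepOn {ω : Cfg n | WW E R T ω = w ∧ CC E R T ω = c} (DW R w c) := by
  have key : ∀ ω ω' : Cfg n, (∀ i ∈ DW R w c, ω i = ω' i) →
      (WW E R T ω = w ∧ CC E R T ω = c) → (WW E R T ω' = w ∧ CC E R T ω' = c) := by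
    rintro ω ω' h ⟨hw, hc⟩
    have hs : ∀ v ∈ w, ω (Sum.inl v) = ω' (Sum.inl v) := fun v hv => h _ (Or.inl ⟨v, hv, rfl⟩)
    have hb : ∀ v ∈ R, ∀ u ∈ c, ω (Sum.inr s(v, u)) = ω' (Sum.inr s(v, u)) :=
      fun v hv u hu => h _ (Or.inr ⟨v, hv, u, hu, rfl⟩)
    have hcw : c ⊆ w := by rw [← hw, ← hc]; exact CC_sub_WW
    have hTw : T ⊆ w := by rw [← hw]; exact fun v hv => ⟨hT hv, Or.inl hv⟩
    have hC : CC E R T ω' = c := by
      ext v
      constructor
      · rintro ⟨_, ho, y, hy, hr⟩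
        rw [SimpleGraph.reachable_iff_reflTransGen] at hr
        induction hr using Relation.ReflTransGen.head_induction_on with
        | refl =>
          rw [← hc]
          exact ⟨hT hy, by rw [hs y (hTw hy)]; exact ho, y, hy, SimpleGraph.Reachable.refl _⟩
        | @head a b hab _ ih =>
          have hbc : b ∈ c := ih hab.2.2.1 hab.2.2.2.2.2.1
          have h1 : ω (Sum.inr s(a, b)) = true := by
            rw [hb a hab.2.1 b hbc]; exact hab.2.2.2.2.2.2
          have hbC : b ∈ CC E R T ω := by rw [hc]; exact hbc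
          have haw : a ∈ w := by
            rw [← hw]
            exact ⟨hab.2.1, Or.inr (Or.inr ⟨b, hbC, hab.2.2.2.1, h1⟩)⟩
          rw [← hc]
          exact CC_step hbC hab.2.1 (by rw [hs a haw]; exact ho) hab.2.2.2.1 h1
      · intro hv
        rw [← hc] at hv
        obtain ⟨_, ho, y, hy, hr⟩ := hv
        rw [SimpleGraph.reachable_iff_reflTransGen] at hr
        induction hr using Relation.ReflTransGen.head_induction_on with
        | refl =>
          exact ⟨hT hy, by rw [← hs y (hTw hy)]; exact ho, y, hy, SimpleGraph.Reachable.refl _⟩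
        | @head a b hab hby ih =>
          have hbo := hab.2.2.2.2.2.1
          have hbc : b ∈ c := by
            rw [← hc]
            exact ⟨hab.2.2.1, hbo, y, hy, (SimpleGraph.reachable_iff_reflTransGen b y).2 hby⟩
          have hac : a ∈ c := by
            rw [← hc]
            exact CC_step (by rw [hc]; exact hbc) hab.2.1 ho hab.2.2.2.1 hab.2.2.2.2.2.2
          exact CC_step (ih hab.2.2.1 hbo) hab.2.1 (by rw [← hs a (hcw hac)]; exact ho) hab.2.2.2.1
            (by rw [← hb a hab.2.1 b hbc]; exact hab.2.2.2.2.2.2)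
    refine ⟨?_, hC⟩
    rw [← hw]
    ext v
    unfold WW
    rw [hC, hc]
    simp only [mem_ofPred_eq]
    refine and_congr_right fun hv => or_congr_right (or_congr_right ?_)
    refine exists_congr fun u => and_congr_right fun hu => ?_
    rw [hb v hv u hu]
  intro ω ω' h
  exact ⟨key ω ω' h, key ω' ω fun i hi => (h i hi).symm⟩

lemma mem_Arm (hx : x0 ∈ R) : ω ∈ Arm E R T x0 ↔ x0 ∈ CC E R T ω :=
  ⟨fun h => ⟨hx, h.1, h.2⟩, fun h => ⟨h.2.1, h.2.2⟩⟩

lemma WW_closed (hv : v ∈ WW E R T ω) (hvC : v ∉ CC E R T ω) : ω (Sum.inl v) = false := by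
  by_contra hne
  rw [Bool.not_eq_false] at hne
  obtain ⟨hR, h | h | ⟨u, hu, huE, hub⟩⟩ := hv
  · exact hvC ⟨hR, hne, v, h, SimpleGraph.Reachable.refl _⟩
  · exact hvC h
  · exact hvC (CC_step hu hR hne huE hub)

lemma CC_le (h : ∀ c, ω c = true → ω' c = true) : CC E R T ω ⊆ CC E R T ω' := by
  rintro v ⟨h1, h2, y, hy, hr⟩
  exact ⟨h1, h _ h2, y, hy, hr.mono (G_le h)⟩

lemma WW_piv (hv : v ∈ WW E R T ω) (hvC : v ∉ CC E R T ω) :
    v ∈ CC E R T (upd (Sum.inl v) true ω) := by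
  obtain ⟨hR, h | h | ⟨u, hu, huE, hub⟩⟩ := hv
  · exact ⟨hR, upd_self _ _ _, v, h, SimpleGraph.Reachable.refl _⟩
  · exact absurd h hvC
  · exact CC_step (CC_le (upd_le _ ω) hu) hR (upd_self _ _ _) huE
      (by rw [upd_ne (by simp)]; exact hub)

/-- connection inside `S` composed with a step into the set `CC` -/
lemma arm_of {S : Set (V n)} (hS : S ⊆ R) (hx0 : ω (Sum.inl x0) = true)
    (hxS : x ∈ S) (hr : (G E ω S).Reachable x0 x) (hle : ∀ c, ω c = true → ω' c = true)
    (hx0R : x0 ∈ R) (hy : y ∈ CC E R T ω') (hE : s(x, y) ∈ E)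
    (hb : ω' (Sum.inr s(x, y)) = true) : ω' ∈ Arm E R T x0 := by
  rw [mem_Arm hx0R]
  have h1 : x ∈ CC E R T ω' := CC_step hy (hS hxS) (hle _ (reach_open hr hx0)) hE hb
  obtain ⟨_, _, t, ht, hrt⟩ := h1
  exact ⟨hx0R, hle _ hx0, t, ht, ((hr.mono (G_mono hS)).mono (G_le hle)).trans hrt⟩

lemma dep_reach (S : Set (V n)) (hx : x0 ∈ S) :
    DepOn {ω : Cfg n | ω (Sum.inl x0) = true ∧ (G E ω S).Reachable x0 x} (Int' S) := by
  intro ω ω' h
  have h1 := Pool.Agent.W975.PC.s_reach_dep n E S x0 x ω ω' fun c hc => h c hc.1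
  simp only [mem_ofPred_eq] at h1 ⊢
  rw [h1, h _ (Or.inl ⟨x0, hx, rfl⟩)]

lemma dep_adj1 (S : Set (V n)) (hx : x0 ∈ S) :
    DepOn (Adj1 E S x0 y) (Int' S ∪ {i | ∃ x ∈ S, i = Sum.inr s(x, y)}) := by
  intro ω ω' h
  unfold Adj1
  simp only [mem_ofPred_eq]
  rw [h _ (Or.inl (Or.inl ⟨x0, hx, rfl⟩))]
  refine and_congr_right fun _ => exists_congr fun x => and_congr_right fun hxS => ?_
  have h1 := Pool.Agent.W975.PC.s_reach_dep n E S x0 x ω ω' fun c hc => h c (Or.inl hc.1)
  simp only [mem_ofPred_eq] at h1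
  rw [h1, h _ (Or.inr ⟨x, hxS, rfl⟩)]

lemma dep_arm (hx : x0 ∈ R) : DepOn (Arm E R T x0) (Int' R) := by
  intro ω ω' h
  unfold Arm
  simp only [mem_ofPred_eq]
  rw [h _ (Or.inl ⟨x0, hx, rfl⟩)]
  refine and_congr_right fun _ => exists_congr fun y => and_congr_right fun _ => ?_
  have h1 := Pool.Agent.W975.PC.s_reach_dep n E R x0 y ω ω' fun c hc => h c hc.1
  simpa only [mem_ofPred_eq] using h1

lemma indr (r : Ix n → unitInterval) {A B : Set (Cfg n)} {J K : Set (Ix n)} (hA : DepOn A J)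
    (hB : DepOn B K) (hd : Disjoint J K) (mA : MeasurableSet A) (mB : MeasurableSet B) :
    (pm r).real (A ∩ B) = (pm r).real A * (pm r).real B := by
  unfold Measure.real
  rw [Pool.Agent.W45.PC.s_indep _ r J K A B hA hB hd mA mB, ENNReal.toReal_mul]

lemma mfin {A : Set (Cfg n)} {J : Set (Ix n)} (hA : DepOn A J) (hJ : J.Finite) :
    MeasurableSet A := by
  refine Pool.Agent.W45.PC.s_depmeas _ hJ.toFinset A ?_
  rw [Set.Finite.coe_toFinset]; exact hA

lemma DW_sub (hw : w ⊆ R) (hc : c ⊆ w) : DW R w c ⊆ Int' R := by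
  rintro i (⟨v, hv, rfl⟩ | ⟨v, hv, u, hu, rfl⟩)
  · exact Or.inl ⟨v, hw hv, rfl⟩
  · refine Or.inr ⟨s(v, u), fun x hx => ?_, rfl⟩
    rcases Sym2.mem_iff.1 hx with rfl | rfl
    · exact hv
    · exact hw (hc hu)

lemma int_fin (R : Finset (V n)) : (Int' (R : Set (V n))).Finite :=
  Pool.Agent.W975.PC.s_int_fin n _ R.finite_toSet

lemma int_mono (h : R ⊆ R') : Int' R ⊆ Int' R' := by
  rintro i (⟨v, hv, rfl⟩ | ⟨e, he, rfl⟩)
  · exact Or.inl ⟨v, h hv, rfl⟩
  · exact Or.inr ⟨e, fun x hx => h (he x hx), rfl⟩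

open scoped Classical in
/-- contribution of one exploration -/
lemma pair_bound (r : Ix n → unitInterval) (R T w c : Finset (V n)) (hT : T ⊆ R)
    (hx0 : x0 ∈ R) (hx0c : x0 ∉ c) (hw : w ⊆ R) (hcw : c ⊆ w) (hTw : T ⊆ w) (c0 : ℝ)
    (hc1 : c0 ≤ 1)
    (hyp : ∀ S : Finset (V n), S ⊆ R → Disjoint S T → x0 ∈ S →
      c0 ≤ ∑ y ∈ R \ S, (pm r).real (Adj1 E (S : Set (V n)) x0 y)) (EC : Set (Cfg n))
    (hEC : EC = {ω : Cfg n | WW E (R : Set (V n)) (T : Set (V n)) ω = (w : Set (V n)) ∧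
      CC E (R : Set (V n)) (T : Set (V n)) ω = (c : Set (V n))}) :
    c0 * (pm r).real EC ≤
      ∑ y ∈ R, (pm r).real ((Piv (Arm E (R : Set (V n)) (T : Set (V n)) x0) (Sum.inl y) ∩
        {ω | ω (Sum.inl y) = false}) ∩ EC) +
      ∑ e ∈ R.sym2, (r (Sum.inr e) : ℝ) *
        (pm r).real ((Piv (Arm E (R : Set (V n)) (T : Set (V n)) x0) (Sum.inr e) ∩
          {ω | ω (Sum.inr e) = false}) ∩ EC) := by
  set μ := pm r with hμ
  have hTR : (T : Set (V n)) ⊆ R := by exact_mod_cast hT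
  have hwR : (w : Set (V n)) ⊆ R := by exact_mod_cast hw
  have hcwS : (c : Set (V n)) ⊆ w := by exact_mod_cast hcw
  have hdEC : DepOn EC (DW (R : Set (V n)) w c) := by rw [hEC]; exact dep_EC hTR
  have hmEC : MeasurableSet EC := mfin hdEC ((int_fin R).subset (DW_sub hwR hcwS))
  have n1 : ∀ y ∈ R, 0 ≤ μ.real ((Piv (Arm E (R : Set (V n)) (T : Set (V n)) x0) (Sum.inl y) ∩
        {ω | ω (Sum.inl y) = false}) ∩ EC) := fun _ _ => measureReal_nonneg
  have n2 : ∀ e ∈ R.sym2, 0 ≤ (r (Sum.inr e) : ℝ) *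
        μ.real ((Piv (Arm E (R : Set (V n)) (T : Set (V n)) x0) (Sum.inr e) ∩
          {ω | ω (Sum.inr e) = false}) ∩ EC) := fun e _ =>
    mul_nonneg (r _).2.1 measureReal_nonneg
  have hnot : ∀ ω ∈ EC, ω ∉ Arm E (R : Set (V n)) (T : Set (V n)) x0 := by
    intro ω hω
    rw [hEC] at hω
    rw [mem_Arm (by exact_mod_cast hx0), hω.2]
    exact fun h => hx0c (by exact_mod_cast h)
  by_cases h0W : x0 ∈ w
  · have h1 : EC ⊆ (Piv (Arm E (R : Set (V n)) (T : Set (V n)) x0) (Sum.inl x0) ∩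
        {ω | ω (Sum.inl x0) = false}) ∩ EC := by
      intro ω hω
      have hω' := hω
      rw [hEC] at hω'
      obtain ⟨hW, hC⟩ := hω'
      have hv : x0 ∈ WW E (R : Set (V n)) (T : Set (V n)) ω := by rw [hW]; exact_mod_cast h0W
      have hvC : x0 ∉ CC E (R : Set (V n)) (T : Set (V n)) ω := by rw [hC]; exact_mod_cast hx0c
      have hcl := WW_closed hv hvC
      refine ⟨⟨⟨?_, ?_⟩, hcl⟩, hω⟩
      · exact (mem_Arm (by exact_mod_cast hx0)).2 (WW_piv hv hvC)
      · rw [upd_of hcl]; exact hnot ω hω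
    have h2 := measureReal_mono h1 (measure_ne_top μ _)
    have h3 := Finset.single_le_sum n1 hx0
    have h4 := Finset.sum_nonneg n2
    have h5 : c0 * μ.real EC ≤ 1 * μ.real EC := mul_le_mul_of_nonneg_right hc1 measureReal_nonneg
    rw [one_mul] at h5
    linarith
  · set S : Finset (V n) := R \ w with hS
    have hSR : S ⊆ R := Finset.sdiff_subset
    have hSRs : (S : Set (V n)) ⊆ R := by exact_mod_cast hSR
    have h0S : x0 ∈ S := Finset.mem_sdiff.2 ⟨hx0, h0W⟩
    have hST : Disjoint S T := by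
      rw [Finset.disjoint_left]
      exact fun a ha hb => (Finset.mem_sdiff.1 ha).2 (hTw hb)
    have hSw : ∀ x ∈ S, x ∉ w := fun x hx => (Finset.mem_sdiff.1 hx).2
    have hRS : R \ S = w := by rw [hS, Finset.sdiff_sdiff_eq_self hw]
    have h1 := hyp S hSR hST h0S
    rw [hRS, ← Finset.sum_sdiff hcw] at h1
    have hp : 0 ≤ μ.real EC := measureReal_nonneg
    -- sites
    have hsite : ∀ y ∈ w \ c, μ.real EC * μ.real (Adj1 E (S : Set (V n)) x0 y) ≤
        μ.real ((Piv (Arm E (R : Set (V n)) (T : Set (V n)) x0) (Sum.inl y) ∩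
        {ω | ω (Sum.inl y) = false}) ∩ EC) := by
      intro y hy
      obtain ⟨hyw, hyc⟩ := Finset.mem_sdiff.1 hy
      have hdA : DepOn (Adj1 E (S : Set (V n)) x0 y)
          (Int' (S : Set (V n)) ∪ {i | ∃ x ∈ (S : Set (V n)), i = Sum.inr s(x, y)}) :=
        dep_adj1 _ (by exact_mod_cast h0S)
      have hmA : MeasurableSet (Adj1 E (S : Set (V n)) x0 y) := by
        refine mfin (dep_mono hdA ?_) (int_fin R)
        rintro i (hi | ⟨x, hx, rfl⟩)
        · exact int_mono hSRs hi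
        · refine Or.inr ⟨s(x, y), fun z hz => ?_, rfl⟩
          rcases Sym2.mem_iff.1 hz with rfl | rfl
          · exact hSRs hx
          · exact hwR (by exact_mod_cast hyw)
      have hd : Disjoint (DW (R : Set (V n)) w c)
          (Int' (S : Set (V n)) ∪ {i | ∃ x ∈ (S : Set (V n)), i = Sum.inr s(x, y)}) := by
        rw [Set.disjoint_left]
        rintro i (⟨v, hv, rfl⟩ | ⟨v, hv, u, hu, rfl⟩)
        · rintro ((⟨x, hx, hh⟩ | ⟨e, he, hh⟩) | ⟨x, hx, hh⟩)
          · rw [Sum.inl.inj hh] at hv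
            exact hSw x (by exact_mod_cast hx) (by exact_mod_cast hv)
          · cases hh
          · cases hh
        · have huw : u ∈ w := hcw (by exact_mod_cast hu)
          rintro ((⟨x, hx, hh⟩ | ⟨e, he, hh⟩) | ⟨x, hx, hh⟩)
          · cases hh
          · rw [← Sum.inr.inj hh] at he
            exact hSw u (by exact_mod_cast he u (Sym2.mem_mk_right v u)) huw
          · have h3 : u ∈ s(x, y) := by rw [← Sum.inr.inj hh]; exact Sym2.mem_mk_right v u
            rcases Sym2.mem_iff.1 h3 with h3 | h3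
            · rw [h3] at huw
              exact hSw x (by exact_mod_cast hx) huw
            · rw [h3] at hu
              exact hyc (by exact_mod_cast hu)
      rw [← indr r hdEC hdA hd hmEC hmA]
      refine measureReal_mono ?_ (measure_ne_top μ _)
      rintro ω ⟨hω, h0, x, hx, hr, hE, hb⟩
      have hω' := hω
      rw [hEC] at hω'
      obtain ⟨hW, hC⟩ := hω'
      have hv : y ∈ WW E (R : Set (V n)) (T : Set (V n)) ω := by rw [hW]; exact_mod_cast hyw
      have hvC : y ∉ CC E (R : Set (V n)) (T : Set (V n)) ω := by rw [hC]; exact_mod_cast hyc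
      have hcl := WW_closed hv hvC
      refine ⟨⟨⟨?_, ?_⟩, hcl⟩, hω⟩
      · exact arm_of hSRs h0 hx hr (upd_le _ ω) (by exact_mod_cast hx0) (WW_piv hv hvC) hE
          (by rw [upd_ne (by simp)]; exact hb)
      · rw [upd_of hcl]; exact hnot ω hω
    -- bonds
    have hbond : ∀ y ∈ c, μ.real EC * μ.real (Adj1 E (S : Set (V n)) x0 y) ≤
        ∑ x ∈ S, (r (Sum.inr s(x, y)) : ℝ) *
          μ.real ((Piv (Arm E (R : Set (V n)) (T : Set (V n)) x0) (Sum.inr s(x, y)) ∩
          {ω | ω (Sum.inr s(x, y)) = false}) ∩ EC) := by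
      intro y hy
      have hyw : y ∈ w := hcw hy
      set Q : V n → Set (Cfg n) := fun x =>
        {ω | ω (Sum.inl x0) = true ∧ (G E ω (S : Set (V n))).Reachable x0 x} with hQ
      have hdQ : ∀ x, DepOn (Q x) (Int' (S : Set (V n))) := fun x =>
        dep_reach _ (by exact_mod_cast h0S)
      have hmQ : ∀ x, MeasurableSet (Q x) := fun x => mfin (hdQ x) (int_fin S)
      have hcov : Adj1 E (S : Set (V n)) x0 y ⊆
          ⋃ x ∈ S.filter (fun x => s(x, y) ∈ E), (Q x ∩ {ω | ω (Sum.inr s(x, y)) = true}) := by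
        rintro ω ⟨h0, x, hx, hr, hE, hb⟩
        simp only [mem_iUnion, exists_prop]
        exact ⟨x, Finset.mem_filter.2 ⟨by exact_mod_cast hx, hE⟩, ⟨h0, hr⟩, hb⟩
      have h2 : μ.real (Adj1 E (S : Set (V n)) x0 y) ≤
          ∑ x ∈ S.filter (fun x => s(x, y) ∈ E), μ.real (Q x ∩ {ω | ω (Sum.inr s(x, y)) = true}) :=
        (measureReal_mono hcov (measure_ne_top μ _)).trans (measureReal_biUnion_finset_le _ _)
      have h3 : ∀ x ∈ S.filter (fun x => s(x, y) ∈ E),
          μ.real EC * μ.real (Q x ∩ {ω | ω (Sum.inr s(x, y)) = true}) ≤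
          (r (Sum.inr s(x, y)) : ℝ) *
          μ.real ((Piv (Arm E (R : Set (V n)) (T : Set (V n)) x0) (Sum.inr s(x, y)) ∩
          {ω | ω (Sum.inr s(x, y)) = false}) ∩ EC) := by
        intro x hx
        obtain ⟨hxS, hE⟩ := Finset.mem_filter.1 hx
        have hi1 : μ.real (Q x ∩ {ω | ω (Sum.inr s(x, y)) = true}) =
            μ.real (Q x) * μ.real {ω | ω (Sum.inr s(x, y)) = true} := by
          refine indr r (hdQ x) (K := {Sum.inr s(x, y)}) ?_ ?_ (hmQ x) (meas_coord _ _)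
          · intro ω ω' h
            simp only [mem_ofPred_eq, h _ (mem_singleton _)]
          · rw [Set.disjoint_singleton_right]
            rintro (⟨z, hz, hh⟩ | ⟨e, he, hh⟩)
            · cases hh
            · rw [← Sum.inr.inj hh] at he
              exact hSw y (by exact_mod_cast he y (Sym2.mem_mk_right x y)) hyw
        have hi2 : μ.real (EC ∩ Q x) = μ.real EC * μ.real (Q x) := by
          refine indr r hdEC (hdQ x) ?_ hmEC (hmQ x)
          rw [Set.disjoint_left]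
          rintro i (⟨v, hv, rfl⟩ | ⟨v, hv, u, hu, rfl⟩)
          · rintro (⟨x, hx, hh⟩ | ⟨e, he, hh⟩)
            · rw [Sum.inl.inj hh] at hv
              exact hSw x (by exact_mod_cast hx) (by exact_mod_cast hv)
            · cases hh
          · have huw : u ∈ w := hcw (by exact_mod_cast hu)
            rintro (⟨x, hx, hh⟩ | ⟨e, he, hh⟩)
            · cases hh
            · rw [← Sum.inr.inj hh] at he
              exact hSw u (by exact_mod_cast he u (Sym2.mem_mk_right v u)) huw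
        rw [hi1, (pm_coord r _).1, ← mul_assoc, ← hi2, mul_comm]
        refine mul_le_mul_of_nonneg_left ?_ (r _).2.1
        refine measureReal_mono ?_ (measure_ne_top μ _)
        rintro ω ⟨hω, h0, hr⟩
        have hω' := hω
        rw [hEC] at hω'
        obtain ⟨hW, hC⟩ := hω'
        have hyC : y ∈ CC E (R : Set (V n)) (T : Set (V n)) ω := by rw [hC]; exact_mod_cast hy
        have hcl : ω (Sum.inr s(x, y)) = false := by
          by_contra hne
          rw [Bool.not_eq_false] at hne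
          have hxW : x ∈ WW E (R : Set (V n)) (T : Set (V n)) ω :=
            ⟨hSRs (by exact_mod_cast hxS), Or.inr (Or.inr ⟨y, hyC, hE, hne⟩)⟩
          rw [hW] at hxW
          exact hSw x hxS (by exact_mod_cast hxW)
        refine ⟨⟨⟨?_, ?_⟩, hcl⟩, hω⟩
        · exact arm_of hSRs h0 (by exact_mod_cast hxS) hr (upd_le _ ω) (by exact_mod_cast hx0)
            (CC_le (upd_le _ ω) hyC) hE (upd_self _ _ _)
        · rw [upd_of hcl]; exact hnot ω hω
      calc μ.real EC * μ.real (Adj1 E (S : Set (V n)) x0 y) ≤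
            μ.real EC * ∑ x ∈ S.filter (fun x => s(x, y) ∈ E),
              μ.real (Q x ∩ {ω | ω (Sum.inr s(x, y)) = true}) := mul_le_mul_of_nonneg_left h2 hp
        _ = ∑ x ∈ S.filter (fun x => s(x, y) ∈ E),
              μ.real EC * μ.real (Q x ∩ {ω | ω (Sum.inr s(x, y)) = true}) := Finset.mul_sum _ _ _
        _ ≤ _ := Finset.sum_le_sum h3
        _ ≤ _ := Finset.sum_le_sum_of_subset_of_nonneg (Finset.filter_subset _ _)
              fun x _ _ => mul_nonneg (r _).2.1 measureReal_nonneg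
    have hsum2 : ∑ y ∈ c, ∑ x ∈ S, (r (Sum.inr s(x, y)) : ℝ) *
          μ.real ((Piv (Arm E (R : Set (V n)) (T : Set (V n)) x0) (Sum.inr s(x, y)) ∩
          {ω | ω (Sum.inr s(x, y)) = false}) ∩ EC) ≤
        ∑ e ∈ R.sym2, (r (Sum.inr e) : ℝ) *
        μ.real ((Piv (Arm E (R : Set (V n)) (T : Set (V n)) x0) (Sum.inr e) ∩
          {ω | ω (Sum.inr e) = false}) ∩ EC) := by
      rw [← Finset.sum_product' c S (fun y x => (r (Sum.inr s(x, y)) : ℝ) *
          μ.real ((Piv (Arm E (R : Set (V n)) (T : Set (V n)) x0) (Sum.inr s(x, y)) ∩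
          {ω | ω (Sum.inr s(x, y)) = false}) ∩ EC))]
      have himg : (∑ z ∈ c ×ˢ S, (r (Sum.inr s(z.2, z.1)) : ℝ) *
          μ.real ((Piv (Arm E (R : Set (V n)) (T : Set (V n)) x0) (Sum.inr s(z.2, z.1)) ∩
          {ω | ω (Sum.inr s(z.2, z.1)) = false}) ∩ EC)) =
          ∑ e ∈ (c ×ˢ S).image (fun z : V n × V n => s(z.2, z.1)), (r (Sum.inr e) : ℝ) *
        μ.real ((Piv (Arm E (R : Set (V n)) (T : Set (V n)) x0) (Sum.inr e) ∩
          {ω | ω (Sum.inr e) = false}) ∩ EC) := by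
        rw [Finset.sum_image]
        rintro ⟨y, x⟩ hz ⟨y', x'⟩ hz' hh
        simp only [Finset.coe_product, mem_prod, Finset.mem_coe] at hz hz'
        simp only [Sym2.eq_iff] at hh
        rcases hh with ⟨h1, h2⟩ | ⟨h1, h2⟩
        · rw [h1, h2]
        · exact absurd (hcw hz'.1) (by rw [← h1]; exact hSw x hz.2)
      rw [himg]
      refine Finset.sum_le_sum_of_subset_of_nonneg ?_ fun e he _ => mul_nonneg (r _).2.1
        measureReal_nonneg
      intro e he
      obtain ⟨z, hz, rfl⟩ := Finset.mem_image.1 he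
      rw [Finset.mem_product] at hz
      rw [Finset.mk_mem_sym2_iff]
      exact ⟨hSR hz.2, hw (hcw hz.1)⟩
    have hsum1 : ∑ y ∈ w \ c, μ.real ((Piv (Arm E (R : Set (V n)) (T : Set (V n)) x0)
        (Sum.inl y) ∩ {ω | ω (Sum.inl y) = false}) ∩ EC) ≤
        ∑ y ∈ R, μ.real ((Piv (Arm E (R : Set (V n)) (T : Set (V n)) x0) (Sum.inl y) ∩
        {ω | ω (Sum.inl y) = false}) ∩ EC) :=
      Finset.sum_le_sum_of_subset_of_nonneg (Finset.sdiff_subset.trans hw)
        fun _ _ _ => measureReal_nonneg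
    calc c0 * μ.real EC ≤ (∑ y ∈ w \ c, μ.real (Adj1 E (S : Set (V n)) x0 y) +
          ∑ y ∈ c, μ.real (Adj1 E (S : Set (V n)) x0 y)) * μ.real EC :=
          mul_le_mul_of_nonneg_right h1 hp
      _ = ∑ y ∈ w \ c, μ.real EC * μ.real (Adj1 E (S : Set (V n)) x0 y) +
          ∑ y ∈ c, μ.real EC * μ.real (Adj1 E (S : Set (V n)) x0 y) := by
          rw [mul_comm, mul_add, Finset.mul_sum, Finset.mul_sum]
      _ ≤ _ := add_le_add ((Finset.sum_le_sum hsite).trans hsum1)
          ((Finset.sum_le_sum hbond).trans hsum2)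

theorem dctu : S_dctu := by
  classical
  intro n r E R T x0 c0 hT hx0 hx0T hc0 hc1 hyp
  set μ := pm r with hμ
  have hTR : (T : Set (V n)) ⊆ R := by exact_mod_cast hT
  have hx0R : x0 ∈ (R : Set (V n)) := by exact_mod_cast hx0
  set A := Arm E (R : Set (V n)) (T : Set (V n)) x0 with hA
  set EC : Finset (V n) × Finset (V n) → Set (Cfg n) := fun z =>
    {ω : Cfg n | WW E (R : Set (V n)) (T : Set (V n)) ω = (z.1 : Set (V n)) ∧
      CC E (R : Set (V n)) (T : Set (V n)) ω = (z.2 : Set (V n))} with hEC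
  set P : Finset (Finset (V n) × Finset (V n)) := (R.powerset ×ˢ R.powerset).filter
    (fun z => x0 ∉ z.2 ∧ z.2 ⊆ z.1 ∧ T ⊆ z.1) with hP
  have hPm : ∀ z ∈ P, z.1 ⊆ R ∧ x0 ∉ z.2 ∧ z.2 ⊆ z.1 ∧ T ⊆ z.1 := by
    intro z hz
    rw [hP, Finset.mem_filter, Finset.mem_product, Finset.mem_powerset] at hz
    exact ⟨hz.1.1, hz.2⟩
  have hdA : DepOn A (Int' (R : Set (V n))) := dep_arm hx0R
  have hmA : MeasurableSet A := mfin hdA (int_fin R)
  have hmEC : ∀ z ∈ P, MeasurableSet (EC z) := by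
    intro z hz
    obtain ⟨h1, h2, h3, h4⟩ := hPm z hz
    exact mfin (dep_EC hTR) ((int_fin R).subset (DW_sub (by exact_mod_cast h1)
      (by exact_mod_cast h3)))
  have hdisj : ∀ z z', z ≠ z' → Disjoint (EC z) (EC z') := by
    intro z z' hne
    rw [Set.disjoint_left]
    rintro ω ⟨h1, h2⟩ ⟨h1', h2'⟩
    apply hne
    refine Prod.ext (Finset.coe_injective (h1.symm.trans h1')) ?_
    exact Finset.coe_injective (h2.symm.trans h2')
  have hcompl : Aᶜ = ⋃ z ∈ P, EC z := by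
    ext ω
    rw [mem_compl_iff, hA, mem_Arm hx0R]
    simp only [mem_iUnion, exists_prop]
    constructor
    · intro h
      have hw : ((R.filter (fun v => v ∈ WW E (R : Set (V n)) (T : Set (V n)) ω) :
          Finset (V n)) : Set (V n)) = WW E (R : Set (V n)) (T : Set (V n)) ω := by
        ext v
        rw [Finset.mem_coe, Finset.mem_filter]
        exact ⟨fun h => h.2, fun h => ⟨by exact_mod_cast h.1, h⟩⟩
      have hc : ((R.filter (fun v => v ∈ CC E (R : Set (V n)) (T : Set (V n)) ω) :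
          Finset (V n)) : Set (V n)) = CC E (R : Set (V n)) (T : Set (V n)) ω := by
        ext v
        rw [Finset.mem_coe, Finset.mem_filter]
        exact ⟨fun h => h.2, fun h => ⟨by exact_mod_cast h.1, h⟩⟩
      refine ⟨(R.filter (fun v => v ∈ WW E (R : Set (V n)) (T : Set (V n)) ω),
        R.filter (fun v => v ∈ CC E (R : Set (V n)) (T : Set (V n)) ω)), ?_, hw.symm, hc.symm⟩
      rw [hP, Finset.mem_filter, Finset.mem_product, Finset.mem_powerset, Finset.mem_powerset]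
      refine ⟨⟨Finset.filter_subset _ _, Finset.filter_subset _ _⟩, ?_, ?_, ?_⟩
      · exact fun h' => h (Finset.mem_filter.1 h').2
      · intro v hv
        rw [Finset.mem_filter] at hv ⊢
        exact ⟨hv.1, CC_sub_WW hv.2⟩
      · intro v hv
        rw [Finset.mem_filter]
        exact ⟨hT hv, by exact_mod_cast hT hv, Or.inl (by exact_mod_cast hv)⟩
    · rintro ⟨z, hz, _, h2⟩
      rw [h2]
      exact fun h => (hPm z hz).2.1 (by exact_mod_cast h)
  have hone : 1 - μ.real A = ∑ z ∈ P, μ.real (EC z) := by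
    have h1 := probReal_compl_eq_one_sub (μ := μ) hmA
    rw [← h1, hcompl, measureReal_biUnion_finset]
    · intro z _ z' _ hne
      exact hdisj z z' hne
    · intro z hz; exact hmEC z hz
  have htot : ∀ B : Set (Cfg n), MeasurableSet B → ∑ z ∈ P, μ.real (B ∩ EC z) ≤ μ.real B := by
    intro B hB
    rw [← measureReal_biUnion_finset]
    · exact measureReal_mono (Set.iUnion₂_subset fun z _ => inter_subset_left)
        (measure_ne_top _ _)
    · intro z _ z' _ hne
      exact Set.disjoint_of_subset inter_subset_right inter_subset_right (hdisj z z' hne)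
    · intro z hz; exact hB.inter (hmEC z hz)
  have hmP : ∀ i, MeasurableSet (Piv A i ∩ {ω | ω i = false}) := fun i =>
    (mfin (dep_Piv hdA _) (int_fin R)).inter (meas_coord _ false)
  rw [hone, Finset.mul_sum]
  calc ∑ z ∈ P, c0 * μ.real (EC z) ≤ ∑ z ∈ P, (∑ y ∈ R, μ.real ((Piv A (Sum.inl y) ∩
        {ω | ω (Sum.inl y) = false}) ∩ EC z) + ∑ e ∈ R.sym2, (r (Sum.inr e) : ℝ) *
        μ.real ((Piv A (Sum.inr e) ∩ {ω | ω (Sum.inr e) = false}) ∩ EC z)) := by
        refine Finset.sum_le_sum fun z hz => ?_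
        obtain ⟨h1, h2, h3, h4⟩ := hPm z hz
        exact pair_bound r R T z.1 z.2 hT hx0 h2 h1 h3 h4 c0 hc1 hyp _ rfl
    _ = ∑ y ∈ R, ∑ z ∈ P, μ.real ((Piv A (Sum.inl y) ∩
        {ω | ω (Sum.inl y) = false}) ∩ EC z) + ∑ e ∈ R.sym2, (r (Sum.inr e) : ℝ) *
        ∑ z ∈ P, μ.real ((Piv A (Sum.inr e) ∩ {ω | ω (Sum.inr e) = false}) ∩ EC z) := by
        rw [Finset.sum_add_distrib, Finset.sum_comm]
        congr 1
        rw [Finset.sum_comm]
        exact Finset.sum_congr rfl fun e _ => (Finset.mul_sum _ _ _).symm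
    _ ≤ _ := by
        refine add_le_add (Finset.sum_le_sum fun y _ => htot _ (hmP _))
          (Finset.sum_le_sum fun e _ => mul_le_mul_of_nonneg_left (htot _ (hmP _)) (r _).2.1)

end Pool.Agent.Y641.PL
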