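import Pool.Agent.Y641.PL.SharpGen
import Pool.Agent.Y990.PL.Stm2

/-!
# Sharpness for site percolation and for bond percolation with long bonds
-/

set_option autoImplicit false

open MeasureTheory Set

namespace Pool.Agent.Y641.PL

open Pool.Agent.W783.PC Pool.Agent.W424.PC Pool.Agent.Y990.PL

lemma piv_open {ι : Type} (r : ι → unitInterval) {J : Finset ι}
    {A : Set (ι → Bool)} (h : DepOn A (J : Set ι)) {e : ι} (he : e ∈ J) :
    (pm r).real (Piv A e ∩ {ω | ω e = true}) = r e * (pm r).real (Piv A e) := by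
  have h1 := piv_closed Pool.Agent.W45.PC.s_indep Pool.Agent.W45.PC.s_depmeas r h he
  have h2 := measureReal_inter_add_sdiff (μ := pm r) (s := Piv A e) (meas_coord e true)
    (measure_ne_top _ _)
  have h3 : Piv A e \ {ω | ω e = true} = Piv A e ∩ {ω | ω e = false} := by
    ext ω
    simp
  rw [h3, h1] at h2
  linarith

variable {n : ℕ}

/-- the common part of the two estimates -/
lemma dctu_rhs (r : Ix n → unitInterval) (E : Set (Sym2 (V n))) (R T : Finset (V n)) (x0 : V n)
    (hx : x0 ∈ R) :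
    ∑ y ∈ R, (pm r).real (Piv (Arm E (R : Set (V n)) (T : Set (V n)) x0) (Sum.inl y) ∩
        {ω | ω (Sum.inl y) = false}) +
      ∑ e ∈ R.sym2, (r (Sum.inr e) : ℝ) *
        (pm r).real (Piv (Arm E (R : Set (V n)) (T : Set (V n)) x0) (Sum.inr e) ∩
          {ω | ω (Sum.inr e) = false}) =
    ∑ y ∈ R, (1 - (r (Sum.inl y) : ℝ)) *
        (pm r).real (Piv (Arm E (R : Set (V n)) (T : Set (V n)) x0) (Sum.inl y)) +
      ∑ e ∈ R.sym2, (r (Sum.inr e) : ℝ) * ((1 - (r (Sum.inr e) : ℝ)) *
        (pm r).real (Piv (Arm E (R : Set (V n)) (T : Set (V n)) x0) (Sum.inr e))) := by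
  have hdep : DepOn (Arm E (R : Set (V n)) (T : Set (V n)) x0)
      ((R.disjSum R.sym2 : Finset (Ix n)) : Set (Ix n)) := by
    rw [coe_J]; exact dep_arm (by exact_mod_cast hx)
  congr 1
  · refine Finset.sum_congr rfl fun y hy => ?_
    exact piv_closed Pool.Agent.W45.PC.s_indep Pool.Agent.W45.PC.s_depmeas r hdep
      (Finset.inl_mem_disjSum.2 hy)
  · refine Finset.sum_congr rfl fun e he => ?_
    rw [piv_closed Pool.Agent.W45.PC.s_indep Pool.Agent.W45.PC.s_depmeas r hdep
      (Finset.inr_mem_disjSum.2 he)]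

lemma mPivI {A : Set (Cfg n)} {J : Finset (Ix n)} (h : DepOn A (J : Set (Ix n))) (i : Ix n)
    (b : Bool) : MeasurableSet (Piv A i ∩ {ω | ω i = b}) :=
  (Pool.Agent.W45.PC.s_depmeas _ J _ (dep_Piv h i)).inter (meas_coord _ _)

/-- the expected numbers of open pivotal bonds and sites -/
lemma count_int (r : Ix n → unitInterval) (E : Set (Sym2 (V n))) (R T : Finset (V n)) (x0 : V n)
    (hT : T ⊆ R) (hx : x0 ∈ R) (hxT : x0 ∉ T) :
    ∑ e ∈ R.sym2, (r (Sum.inr e) : ℝ) *
        (pm r).real (Piv (Arm E (R : Set (V n)) (T : Set (V n)) x0) (Sum.inr e)) ≤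
      ∑ y ∈ R, (r (Sum.inl y) : ℝ) *
        (pm r).real (Piv (Arm E (R : Set (V n)) (T : Set (V n)) x0) (Sum.inl y)) := by
  classical
  have hdep : DepOn (Arm E (R : Set (V n)) (T : Set (V n)) x0)
      ((R.disjSum R.sym2 : Finset (Ix n)) : Set (Ix n)) := by
    rw [coe_J]; exact dep_arm (by exact_mod_cast hx)
  set A := Arm E (R : Set (V n)) (T : Set (V n)) x0 with hA
  have h1 := sum_meas_le (pm r) R.sym2 R (fun e => Piv A (Sum.inr e) ∩ {ω | ω (Sum.inr e) = true})
    (fun y => Piv A (Sum.inl y) ∩ {ω | ω (Sum.inl y) = true}) (fun _ _ => mPivI hdep _ _)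
    (fun _ _ => mPivI hdep _ _) (by
      intro ω
      have h2 := Pool.Agent.Y46.PL.pivcount n E R T x0 hT hx hxT ω
      have e1 : ∑ e ∈ R.sym2, (Piv A (Sum.inr e) ∩ {ω | ω (Sum.inr e) = true}).indicator
          (fun _ => (1 : ℝ)) ω = ((R.sym2.filter (fun e => ω (Sum.inr e) = true ∧
            ω ∈ Piv A (Sum.inr e))).card : ℝ) := by
        rw [Finset.card_filter]
        push_cast
        refine Finset.sum_congr rfl fun e _ => ?_
        rw [Set.indicator_apply]
        by_cases h3 : ω (Sum.inr e) = true ∧ ω ∈ Piv A (Sum.inr e)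
        · rw [if_pos h3, if_pos ⟨h3.2, h3.1⟩]
        · rw [if_neg h3, if_neg (fun h4 => h3 ⟨h4.2, h4.1⟩)]
      have e2 : ∑ y ∈ R, (Piv A (Sum.inl y) ∩ {ω | ω (Sum.inl y) = true}).indicator
          (fun _ => (1 : ℝ)) ω = ((R.filter (fun y => ω (Sum.inl y) = true ∧
            ω ∈ Piv A (Sum.inl y))).card : ℝ) := by
        rw [Finset.card_filter]
        push_cast
        refine Finset.sum_congr rfl fun e _ => ?_
        rw [Set.indicator_apply]
        by_cases h3 : ω (Sum.inl e) = true ∧ ω ∈ Piv A (Sum.inl e)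
        · rw [if_pos h3, if_pos ⟨h3.2, h3.1⟩]
        · rw [if_neg h3, if_neg (fun h4 => h3 ⟨h4.2, h4.1⟩)]
      rw [e1, e2]
      exact_mod_cast h2)
  calc ∑ e ∈ R.sym2, (r (Sum.inr e) : ℝ) * (pm r).real (Piv A (Sum.inr e)) =
        ∑ e ∈ R.sym2, (pm r).real (Piv A (Sum.inr e) ∩ {ω | ω (Sum.inr e) = true}) :=
        Finset.sum_congr rfl fun e he => (piv_open r hdep (Finset.inr_mem_disjSum.2 he)).symm
    _ ≤ _ := h1
    _ = _ := Finset.sum_congr rfl fun e he => piv_open r hdep (Finset.inl_mem_disjSum.2 he)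

theorem sharpS : S_sharpS := by
  intro n m s β a1 a2 x0 h12 h0
  have h12' : (a1 : ℝ) < a2 := h12
  set ρ : ℝ → Ix n → ℝ := fun t c => match c with
    | Sum.inl _ => t
    | Sum.inr e => (prob (n := n) a1 1 β s m (Sum.inr e) : ℝ) with hρ
  set ρ' : ℝ → Ix n → ℝ := fun _ c => match c with
    | Sum.inl _ => 1
    | Sum.inr _ => 0 with hρ'
  refine sharp_gen (a1 : ℝ) a2 1 h12' one_pos ρ ρ' (prob (n := n) a1 1 β s m)
    (prob (n := n) a2 1 β s m) ?_ ?_ ?_ ?_ h0
  · intro c
    rcases c with x | e <;> rfl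
  · intro c
    rcases c with x | e <;> rfl
  · intro t _ _ c
    rcases c with x | e
    · exact hasDerivAt_id' t
    · exact hasDerivAt_const t _
  · intro t h1 h2
    set q : unitInterval := ⟨t, le_trans a1.2.1 h1, le_trans h2 a2.2.2⟩ with hq
    refine ⟨prob (n := n) q 1 β s m, ?_, ?_, ?_⟩
    · intro c
      rcases c with x | e <;> rfl
    · intro c
      rcases c with x | e
      · exact h1
      · exact le_refl _
    · intro R T hT hx hxT
      rw [dctu_rhs _ _ _ _ _ hx]
      have h3 := count_int (prob (n := n) q 1 β s m) (EdI m) R T x0 hT hx hxT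
      set μ := pm (prob (n := n) q 1 β s m) with hμ
      set A := Arm (EdI m) (R : Set (V n)) (T : Set (V n)) x0 with hA
      have e1 : ∀ y : V n, (prob (n := n) q 1 β s m (Sum.inl y) : ℝ) = t := fun _ => rfl
      have h4 : ∑ e ∈ R.sym2, (prob (n := n) q 1 β s m (Sum.inr e) : ℝ) *
          ((1 - (prob (n := n) q 1 β s m (Sum.inr e) : ℝ)) * μ.real (Piv A (Sum.inr e))) ≤
          ∑ e ∈ R.sym2, (prob (n := n) q 1 β s m (Sum.inr e) : ℝ) * μ.real (Piv A (Sum.inr e)) := by
        refine Finset.sum_le_sum fun e _ => ?_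
        refine mul_le_mul_of_nonneg_left ?_ (prob (n := n) q 1 β s m (Sum.inr e)).2.1
        have h5 := (prob (n := n) q 1 β s m (Sum.inr e)).2.1
        have h6 : 0 ≤ μ.real (Piv A (Sum.inr e)) := measureReal_nonneg
        nlinarith
      simp only [e1] at h3 ⊢
      have e2 : ∑ y ∈ R, (1 - t) * μ.real (Piv A (Sum.inl y)) +
          ∑ y ∈ R, t * μ.real (Piv A (Sum.inl y)) =
          ∑ y ∈ R, ρ' t (Sum.inl y) * μ.real (Piv A (Sum.inl y)) := by
        rw [← Finset.sum_add_distrib]
        refine Finset.sum_congr rfl fun y _ => ?_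
        show _ = 1 * _
        ring
      have e3 : ∑ e ∈ R.sym2, ρ' t (Sum.inr e) * μ.real (Piv A (Sum.inr e)) = 0 :=
        Finset.sum_eq_zero fun e _ => by show 0 * _ = (0 : ℝ); ring
      rw [e3, ← e2]
      linarith

/-- `(1 - e^{-u}) e^{-u} ≤ u e^{-u}` -/
lemma exp_aux (u : ℝ) : (1 - Real.exp (-u)) * Real.exp (-u) ≤ u * Real.exp (-u) := by
  have h1 := Real.add_one_le_exp (-u)
  have h2 := Real.exp_pos (-u)
  nlinarith

theorem sharpB : S_sharpB := by
  classical
  intro n m s b x1 x2 x0 h12 h0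
  have h12' : (x1 : ℝ) < x2 := h12
  have hx1 : (0 : ℝ) ≤ x1 := x1.2
  have hb0 : (0 : ℝ) ≤ b := b.2
  have hx2 : (0 : ℝ) < x2 := lt_of_le_of_lt hx1 h12'
  set J : Sym2 (V n) → ℝ := fun e => (b : ℝ) * ((len e : ℕ) : ℝ) ^ (-s) with hJ
  have hJ0 : ∀ e, 0 ≤ J e := fun e => mul_nonneg hb0 (Real.rpow_nonneg (Nat.cast_nonneg _) _)
  set ρ : ℝ → Ix n → ℝ := fun t c => match c with
    | Sum.inl _ => 1
    | Sum.inr e => if isNN e then 1 - Real.exp (-t) else
        if isLg m e then 1 - Real.exp (-(t * J e)) else 0 with hρ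
  set ρ' : ℝ → Ix n → ℝ := fun t c => match c with
    | Sum.inl _ => 0
    | Sum.inr e => if isNN e then Real.exp (-t) else
        if isLg m e then J e * Real.exp (-(t * J e)) else 0 with hρ'
  have hρr : ∀ (x : NNReal) (c : Ix n),
      ρ (x : ℝ) c = (prob (n := n) 1 (pe x) (x * b) s m c : ℝ) := by
    intro x c
    rcases c with y | e
    · rfl
    · simp only [hρ, prob]
      split_ifs with g1 g2
      · rfl
      · show 1 - Real.exp (-((x : ℝ) * J e)) =
          1 - Real.exp (-(((x * b : NNReal) : ℝ) * ((len e : ℕ) : ℝ) ^ (-s)))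
        rw [hJ]
        push_cast
        rw [mul_assoc]
      · rfl
  have hmono : ∀ (t t' : ℝ), t ≤ t' → ∀ c, ρ t c ≤ ρ t' c := by
    intro t t' htt c
    rcases c with y | e
    · exact le_refl _
    · simp only [hρ]
      split_ifs with g1 g2
      · have : Real.exp (-t') ≤ Real.exp (-t) := Real.exp_le_exp.2 (by linarith)
        linarith
      · have : Real.exp (-(t' * J e)) ≤ Real.exp (-(t * J e)) := by
          apply Real.exp_le_exp.2
          have := hJ0 e
          nlinarith
        linarith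
      · exact le_refl _
  refine sharp_gen (x1 : ℝ) x2 x2 h12' hx2 ρ ρ' (prob (n := n) 1 (pe x1) (x1 * b) s m)
    (prob (n := n) 1 (pe x2) (x2 * b) s m) (hρr x1) (hρr x2) ?_ ?_ h0
  · intro t _ _ c
    rcases c with y | e
    · exact hasDerivAt_const t _
    · by_cases g1 : isNN e
      · have h1 : HasDerivAt (fun t : ℝ => 1 - Real.exp (-t)) (Real.exp (-t)) t := by
          have := (hasDerivAt_const t (1 : ℝ)).sub ((hasDerivAt_neg' t).exp)
          refine this.congr_deriv ?_
          ring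
        simpa only [hρ, hρ', if_pos g1] using h1
      · by_cases g2 : isLg m e
        · have h1 : HasDerivAt (fun t : ℝ => 1 - Real.exp (-(t * J e)))
              (J e * Real.exp (-(t * J e))) t := by
            have h2 : HasDerivAt (fun t : ℝ => -(t * J e)) (-(1 * J e)) t :=
              ((hasDerivAt_id' t).mul_const (J e)).neg
            have := (hasDerivAt_const t (1 : ℝ)).sub h2.exp
            refine this.congr_deriv ?_
            ring
          simpa only [hρ, hρ', if_neg g1, if_pos g2] using h1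
        · simpa only [hρ, hρ', if_neg g1, if_neg g2] using hasDerivAt_const t (0 : ℝ)
  · intro t h1 h2
    have ht0 : 0 ≤ t := le_trans hx1 h1
    set τ : NNReal := ⟨t, ht0⟩ with hτ
    have hτt : (τ : ℝ) = t := rfl
    refine ⟨prob (n := n) 1 (pe τ) (τ * b) s m, hρr τ, ?_, ?_⟩
    · intro c
      rw [← Subtype.coe_le_coe, ← hρr, ← hρr]
      exact hmono _ _ h1 c
    · intro R T hT hx hxT
      rw [dctu_rhs _ _ _ _ _ hx]
      set μ := pm (prob (n := n) 1 (pe τ) (τ * b) s m) with hμ
      set A := Arm (EdI m) (R : Set (V n)) (T : Set (V n)) x0 with hA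
      have e1 : ∑ y ∈ R, (1 - (prob (n := n) 1 (pe τ) (τ * b) s m (Sum.inl y) : ℝ)) *
          μ.real (Piv A (Sum.inl y)) = 0 := by
        refine Finset.sum_eq_zero fun y _ => ?_
        rw [← hρr]
        show (1 - (1 : ℝ)) * _ = 0
        ring
      have e2 : ∑ y ∈ R, ρ' t (Sum.inl y) * μ.real (Piv A (Sum.inl y)) = 0 :=
        Finset.sum_eq_zero fun e _ => by show (0 : ℝ) * _ = 0; ring
      rw [e1, e2, zero_add, zero_add, Finset.mul_sum]
      refine Finset.sum_le_sum fun e _ => ?_
      rw [← hρr, hτt, ← mul_assoc, ← mul_assoc]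
      refine mul_le_mul_of_nonneg_right ?_ measureReal_nonneg
      simp only [hρ, hρ']
      split_ifs with g1 g2
      · have h3 := exp_aux t
        have h4 := Real.exp_pos (-t)
        have h5 : t * Real.exp (-t) ≤ x2 * Real.exp (-t) :=
          mul_le_mul_of_nonneg_right h2 h4.le
        have h6 : (1 - Real.exp (-t)) * (1 - (1 - Real.exp (-t))) =
          (1 - Real.exp (-t)) * Real.exp (-t) := by ring
        rw [h6]
        linarith
      · have h3 := exp_aux (t * J e)
        have h4 := Real.exp_pos (-(t * J e))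
        have h5 : t * J e * Real.exp (-(t * J e)) ≤ x2 * J e * Real.exp (-(t * J e)) :=
          mul_le_mul_of_nonneg_right (mul_le_mul_of_nonneg_right h2 (hJ0 e)) h4.le
        have h6 : (1 - Real.exp (-(t * J e))) * (1 - (1 - Real.exp (-(t * J e)))) =
          (1 - Real.exp (-(t * J e))) * Real.exp (-(t * J e)) := by ring
        have h7 : (x2 : ℝ) * (J e * Real.exp (-(t * J e))) = x2 * J e * Real.exp (-(t * J e)) := by
          ring
        rw [h6, h7]
        linarith
      · simp

end Pool.Agent.Y641.PL
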