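import Pool.Agent.Y641.PL.Dctu
import Pool.Agent.Y46.PL.PivCount
import Pool.Agent.W400.PC.PT
import Pool.Agent.W424.PC.Lat

/-!
# Sharpness from the differential inequality, general form
-/

set_option autoImplicit false

open MeasureTheory Set

namespace Pool.Agent.Y641.PL

open Pool.Agent.W783.PC Pool.Agent.W424.PC Pool.Agent.Y990.PL

variable {n : ℕ} {E : Set (Sym2 (V n))} {x0 : V n}

lemma arm_inc (R T : Set (V n)) : Inc (Arm E R T x0) := by
  rintro ω ω' h ⟨h0, y, hy, hr⟩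
  exact ⟨h _ h0, y, hy, hr.mono (G_le h)⟩

lemma adj1_inc (S : Set (V n)) (y : V n) : Inc (Adj1 E S x0 y) := by
  rintro ω ω' h ⟨h0, x, hx, hr, hE, hb⟩
  exact ⟨h _ h0, x, hx, hr.mono (G_le h), hE, h _ hb⟩

lemma adj1_meas (S : Finset (V n)) (hx : x0 ∈ S) (y : V n) :
    MeasurableSet (Adj1 E (S : Set (V n)) x0 y) := by
  classical
  refine mfin (dep_mono (dep_adj1 _ (by exact_mod_cast hx)) ?_) (int_fin (insert y S))
  rintro i (hi | ⟨x, hx, rfl⟩)
  · exact int_mono (by simp) hi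
  · refine Or.inr ⟨s(x, y), fun z hz => ?_, rfl⟩
    rcases Sym2.mem_iff.1 hz with rfl | rfl
    · simp only [Finset.coe_insert, mem_insert_iff]; exact Or.inr hx
    · simp

/-- the coordinates of a finite region -/
lemma coe_J (R : Finset (V n)) :
    ((R.disjSum R.sym2 : Finset (Ix n)) : Set (Ix n)) = Int' (R : Set (V n)) := by
  ext i
  rcases i with x | e
  · simp only [Finset.mem_coe, Finset.inl_mem_disjSum]
    constructor
    · exact fun h => Or.inl ⟨x, by exact_mod_cast h, rfl⟩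
    · rintro (⟨y, hy, h⟩ | ⟨e, _, h⟩)
      · rw [Sum.inl.inj h]; exact_mod_cast hy
      · cases h
  · simp only [Finset.mem_coe, Finset.inr_mem_disjSum, Finset.mem_sym2_iff]
    constructor
    · exact fun h => Or.inr ⟨e, fun x hx => by exact_mod_cast h x hx, rfl⟩
    · rintro (⟨y, hy, h⟩ | ⟨e', he, h⟩)
      · cases h
      · rw [Sum.inr.inj h]; exact fun x hx => by exact_mod_cast he x hx

/-- the cluster of `x0` leaves the box -/
def Bk (E : Set (Sym2 (V n))) (x0 : V n) (k : ℕ) : Set (Cfg n) :=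
  {ω | ∃ y : V n, y ∉ (CB k k : Set (V n)) ∧ (G E ω univ).Reachable x0 y}

lemma Bk_meas (k : ℕ) : MeasurableSet (Bk E x0 k) := by
  have : Bk E x0 k = ⋃ y : V n, ⋃ (_ : y ∉ (CB k k : Set (V n))),
      {ω | (G E ω univ).Reachable x0 y} := by
    ext ω; simp [Bk]
  rw [this]
  exact MeasurableSet.iUnion fun y => MeasurableSet.iUnion fun _ =>
    Pool.Agent.W975.PC.s_reach_meas n _ _ _ _

lemma Bk_anti : Antitone (Bk E x0) := by
  intro k l hkl ω hω
  obtain ⟨y, hy, hr⟩ := hω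
  refine ⟨y, fun h => hy ?_, hr⟩
  have hkl' : (k : ℤ) ≤ l := by exact_mod_cast hkl
  exact ⟨h.1.trans hkl', fun i => (h.2 i).trans hkl'⟩

lemma exists_box (F : Finset (V n)) : ∃ M : ℕ, ∀ v ∈ F, v ∈ (CB M M : Set (V n)) := by
  refine ⟨∑ v ∈ F, (v.1.natAbs + ∑ i, (v.2 i).natAbs), fun v hv => ?_⟩
  have h1 := Finset.single_le_sum (f := fun v : V n => (v.1.natAbs + ∑ i, (v.2 i).natAbs))
      (fun _ _ => Nat.zero_le _) hv
  constructor
  · have h2 : v.1.natAbs ≤ ∑ v ∈ F, (v.1.natAbs + ∑ i, (v.2 i).natAbs) :=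
      (Nat.le_add_right _ _).trans h1
    rw [Int.abs_eq_natAbs]
    exact_mod_cast h2
  · intro i
    have h3 : (v.2 i).natAbs ≤ ∑ i, (v.2 i).natAbs :=
      Finset.single_le_sum (f := fun i => (v.2 i).natAbs) (fun _ _ => Nat.zero_le _)
        (Finset.mem_univ i)
    have h2 : (v.2 i).natAbs ≤ ∑ v ∈ F, (v.1.natAbs + ∑ i, (v.2 i).natAbs) :=
      (h3.trans (Nat.le_add_left _ _)).trans h1
    rw [Int.abs_eq_natAbs]
    exact_mod_cast h2

lemma Bk_perc : (⋂ k, Bk E x0 k) ⊆ Perc E x0 := by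
  intro ω hω
  rw [mem_iInter] at hω
  show (cl E ω univ x0).Infinite
  intro hfin
  obtain ⟨M, hM⟩ := exists_box hfin.toFinset
  obtain ⟨y, hy, hr⟩ := hω M
  exact hy (hM y (by rw [Set.Finite.mem_toFinset]; exact hr))

lemma perc_lower (r : Ix n → unitInterval) (c : ℝ)
    (h : ∃ k0 : ℕ, ∀ k, k0 ≤ k → c ≤ (pm r).real (Bk E x0 k)) : c ≤ (pm r).real (Perc E x0) := by
  obtain ⟨k0, h⟩ := h
  have h' : ∀ k, c ≤ (pm r).real (Bk E x0 k) := by
    intro k
    rcases le_total k0 k with hk | hk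
    · exact h k hk
    · exact (h k0 le_rfl).trans (measureReal_mono (Bk_anti hk) (measure_ne_top _ _))
  have hlim := tendsto_measure_iInter_atTop (μ := pm r) (s := Bk E x0)
    (fun k => (Bk_meas k).nullMeasurableSet) Bk_anti ⟨0, measure_ne_top _ _⟩
  have h1 : Filter.Tendsto (fun k => (pm r).real (Bk E x0 k)) Filter.atTop
      (nhds ((pm r).real (⋂ k, Bk E x0 k))) := by
    unfold Measure.real
    exact (ENNReal.tendsto_toReal (measure_ne_top _ _)).comp hlim
  exact (ge_of_tendsto' h1 h').trans (measureReal_mono Bk_perc (measure_ne_top _ _))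

/-- solution of the differential inequality -/
lemma ode_lower (F : ℝ → ℝ) (t1 t2 c : ℝ) (h12 : t1 < t2) (hc : 0 < c) (hF0 : 0 ≤ F t1)
    (hder : ∀ t : ℝ, t1 ≤ t → t ≤ t2 → ∃ D, HasDerivAt F D t ∧ 1 - F t ≤ c * D) :
    1 - Real.exp (-((t2 - t1) / c)) ≤ F t2 := by
  set g : ℝ → ℝ := fun t => (1 - F t) * Real.exp (t / c) with hg
  have hgder : ∀ t : ℝ, t1 ≤ t → t ≤ t2 → ∃ D, HasDerivAt g D t ∧ D ≤ 0 := by
    intro t h1 h2
    obtain ⟨D, hD, hD2⟩ := hder t h1 h2
    have he : HasDerivAt (fun t : ℝ => Real.exp (t / c)) (Real.exp (t / c) * (1 / c)) t :=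
      ((hasDerivAt_id' t).div_const c).exp
    have h3 := ((hasDerivAt_const t (1 : ℝ)).sub hD).mul he
    refine ⟨_, h3, ?_⟩
    simp only [Pi.sub_apply]
    have h4 := Real.exp_pos (t / c)
    have h5 : (1 - F t) * (1 / c) ≤ D := by
      rw [mul_one_div, div_le_iff₀ hc]
      linarith
    nlinarith
  have hanti : AntitoneOn g (Set.Icc t1 t2) := by
    refine antitoneOn_of_deriv_nonpos (convex_Icc _ _) ?_ ?_ ?_
    · intro t ht
      obtain ⟨D, hD, _⟩ := hgder t ht.1 ht.2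
      exact hD.continuousAt.continuousWithinAt
    · intro t ht
      rw [interior_Icc] at ht
      obtain ⟨D, hD, _⟩ := hgder t ht.1.le ht.2.le
      exact hD.differentiableAt.differentiableWithinAt
    · intro t ht
      rw [interior_Icc] at ht
      obtain ⟨D, hD, hD2⟩ := hgder t ht.1.le ht.2.le
      rw [hD.deriv]; exact hD2
  have h1 := hanti (Set.left_mem_Icc.2 h12.le) (Set.right_mem_Icc.2 h12.le) h12.le
  simp only [hg] at h1
  have h4 : (1 - F t1) * Real.exp (t1 / c) ≤ Real.exp (t1 / c) := by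
    have := Real.exp_pos (t1 / c)
    nlinarith
  have h5 : (1 - F t2) ≤ Real.exp (-((t2 - t1) / c)) := by
    have h6 : Real.exp (-((t2 - t1) / c)) * Real.exp (t2 / c) = Real.exp (t1 / c) := by
      rw [← Real.exp_add]; congr 1; field_simp; ring
    have h7 := Real.exp_pos (t2 / c)
    have h8 : (1 - F t2) * Real.exp (t2 / c) ≤
        Real.exp (-((t2 - t1) / c)) * Real.exp (t2 / c) := by rw [h6]; linarith
    exact le_of_mul_le_mul_right h8 h7
  linarith

/-- general form of sharpness -/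
theorem sharp_gen (t1 t2 K : ℝ) (h12 : t1 < t2) (hK : 0 < K) (ρ ρ' : ℝ → Ix n → ℝ)
    (r1 r2 : Ix n → unitInterval) (hr1 : ∀ c, ρ t1 c = r1 c) (hr2 : ∀ c, ρ t2 c = r2 c)
    (hd : ∀ t, t1 ≤ t → t ≤ t2 → ∀ c, HasDerivAt (fun t => ρ t c) (ρ' t c) t)
    (hr : ∀ t, t1 ≤ t → t ≤ t2 → ∃ r : Ix n → unitInterval, (∀ c, ρ t c = r c) ∧
      (∀ c, r1 c ≤ r c) ∧ ∀ (R T : Finset (V n)), T ⊆ R → x0 ∈ R → x0 ∉ T →
      ∑ y ∈ R, (pm r).real (Piv (Arm E (R : Set (V n)) (T : Set (V n)) x0) (Sum.inl y) ∩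
        {ω | ω (Sum.inl y) = false}) +
      ∑ e ∈ R.sym2, (r (Sum.inr e) : ℝ) *
        (pm r).real (Piv (Arm E (R : Set (V n)) (T : Set (V n)) x0) (Sum.inr e) ∩
          {ω | ω (Sum.inr e) = false}) ≤
      K * (∑ y ∈ R, ρ' t (Sum.inl y) *
          (pm r).real (Piv (Arm E (R : Set (V n)) (T : Set (V n)) x0) (Sum.inl y)) +
        ∑ e ∈ R.sym2, ρ' t (Sum.inr e) *
          (pm r).real (Piv (Arm E (R : Set (V n)) (T : Set (V n)) x0) (Sum.inr e))))
    (h0 : (pm r2).real (Perc E x0) = 0) :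
    ∃ (S : Finset (V n)) (ρ : ℝ), x0 ∈ S ∧ 0 ≤ ρ ∧ ρ < 1 ∧ ∀ T : Finset (V n),
      ∑ y ∈ T \ S, (pm r1).real (Adj1 E (S : Set (V n)) x0 y) ≤ ρ := by
  by_contra hcon
  have hcon' : ∀ S : Finset (V n), x0 ∈ S → ∃ T : Finset (V n),
      1 / 2 < ∑ y ∈ T \ S, (pm r1).real (Adj1 E (S : Set (V n)) x0 y) := by
    intro S hS
    by_contra hno
    push Not at hno
    exact hcon ⟨S, 1 / 2, hS, by norm_num, by norm_num, hno⟩
  choose! TS hTS using hcon'
  have hpos : 0 < 1 - Real.exp (-((t2 - t1) / (2 * K))) := by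
    rw [sub_pos, Real.exp_lt_one_iff]
    have : 0 < (t2 - t1) / (2 * K) := div_pos (by linarith) (by linarith)
    linarith
  have hlow : 1 - Real.exp (-((t2 - t1) / (2 * K))) ≤ (pm r2).real (Perc E x0) := by
    refine perc_lower r2 _ ?_
    obtain ⟨k0, hk0⟩ := exists_box {x0}
    refine ⟨k0, fun k hk => ?_⟩
    have hxk : x0 ∈ (CB k k : Set (V n)) := by
      have h1 := hk0 x0 (by simp)
      have hkl' : (k0 : ℤ) ≤ k := by exact_mod_cast hk
      exact ⟨h1.1.trans hkl', fun i => (h1.2 i).trans hkl'⟩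
    set Q : Finset (V n) := (CB_finite (n := n) k k).toFinset with hQ
    have hmQ : ∀ v, v ∈ Q ↔ v ∈ (CB k k : Set (V n)) := fun v => by
      rw [hQ, Set.Finite.mem_toFinset]
    have hxQ : x0 ∈ Q := (hmQ x0).2 hxk
    set R : Finset (V n) := Q ∪ Q.powerset.biUnion TS with hR
    set T : Finset (V n) := R \ Q with hT
    have hTR : T ⊆ R := Finset.sdiff_subset
    have hxR : x0 ∈ R := Finset.mem_union_left _ hxQ
    have hxT : x0 ∉ T := fun h => (Finset.mem_sdiff.1 h).2 hxQ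
    set A := Arm E (R : Set (V n)) (T : Set (V n)) x0 with hA
    have hxRs : x0 ∈ (R : Set (V n)) := by exact_mod_cast hxR
    have hdep : DepOn A ((R.disjSum R.sym2 : Finset (Ix n)) : Set (Ix n)) := by
      rw [coe_J]; exact dep_arm hxRs
    have hAB : A ⊆ Bk E x0 k := by
      rintro ω ⟨_, y, hy, hr⟩
      refine ⟨y, fun h => ?_, hr.mono (G_mono (subset_univ _))⟩
      have h1 : y ∈ T := by exact_mod_cast hy
      exact (Finset.mem_sdiff.1 h1).2 ((hmQ y).2 h)
    refine le_trans ?_ (measureReal_mono hAB (measure_ne_top _ _))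
    set J := (R.disjSum R.sym2 : Finset (Ix n)) with hJ
    have hF : ∀ t (r : Ix n → unitInterval), (∀ c, ρ t c = r c) →
        EE J (ρ t) (I1 A) = (pm r).real A := by
      intro t r hh
      rw [pm_eq_EE Pool.Agent.W45.PC.s_indep Pool.Agent.W45.PC.s_depmeas r hdep]
      have : ρ t = fun c => (r c : ℝ) := funext hh
      rw [this]
    rw [← hF t2 r2 hr2]
    refine ode_lower (fun t => EE J (ρ t) (I1 A)) t1 t2 (2 * K) h12 (by linarith) ?_ ?_
    · show 0 ≤ EE J (ρ t1) (I1 A)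
      rw [hF t1 r1 hr1]; exact measureReal_nonneg
    · intro t h1 h2
      obtain ⟨r, hrρ, hrm, hrb⟩ := hr t h1 h2
      have hdd := russo_pm Pool.Agent.W45.PC.s_indep Pool.Agent.W45.PC.s_depmeas r hdep
        (arm_inc _ _) ρ (ρ' t) t (hd t h1 h2) hrρ
      refine ⟨_, hdd, ?_⟩
      show 1 - EE J (ρ t) (I1 A) ≤ _
      rw [hF t r hrρ, hJ, Finset.sum_disjSum]
      have h3 := dctu n r E R T x0 (1 / 2) hTR hxR hxT (by norm_num) (by norm_num) (by
        intro S hS hST hxS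
        have hSQ : S ⊆ Q := by
          intro v hv
          by_contra hvQ
          exact Finset.disjoint_left.1 hST hv (Finset.mem_sdiff.2 ⟨hS hv, hvQ⟩)
        have hsub : TS S \ S ⊆ R \ S := by
          intro v hv
          obtain ⟨g1, g2⟩ := Finset.mem_sdiff.1 hv
          refine Finset.mem_sdiff.2 ⟨Finset.mem_union_right _ ?_, g2⟩
          exact Finset.mem_biUnion.2 ⟨S, Finset.mem_powerset.2 hSQ, g1⟩
        calc (1 / 2 : ℝ) ≤ ∑ y ∈ TS S \ S, (pm r1).real (Adj1 E (S : Set (V n)) x0 y) :=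
              (hTS S hxS).le
          _ ≤ ∑ y ∈ TS S \ S, (pm r).real (Adj1 E (S : Set (V n)) x0 y) := by
              refine Finset.sum_le_sum fun y _ => ?_
              exact ENNReal.toReal_mono (measure_ne_top _ _)
                (Pool.Agent.W400.PC.s_mono _ _ _ _ hrm (adj1_inc _ _) (adj1_meas S hxS y))
          _ ≤ _ := by
              refine Finset.sum_le_sum_of_subset_of_nonneg ?_ fun _ _ _ => measureReal_nonneg
              convert hsub)
      have h4 := hrb R T hTR hxR hxT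
      rw [← hA] at h3 h4
      linarith
  rw [h0] at hlow
  linarith

/-- integration of an inequality between numbers of elements -/
lemma sum_meas_le {α β Ω : Type} [MeasurableSpace Ω] (μ : Measure Ω) [IsFiniteMeasure μ]
    (F : Finset α) (H : Finset β) (B : α → Set Ω) (C : β → Set Ω)
    (hB : ∀ a ∈ F, MeasurableSet (B a)) (hC : ∀ b ∈ H, MeasurableSet (C b))
    (h : ∀ ω, ∑ a ∈ F, (B a).indicator (fun _ => (1 : ℝ)) ω ≤
      ∑ b ∈ H, (C b).indicator (fun _ => (1 : ℝ)) ω) :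
    ∑ a ∈ F, μ.real (B a) ≤ ∑ b ∈ H, μ.real (C b) := by
  have iB : ∀ a ∈ F, Integrable ((B a).indicator (fun _ => (1 : ℝ))) μ := fun a ha =>
    (integrable_const 1).indicator (hB a ha)
  have iC : ∀ b ∈ H, Integrable ((C b).indicator (fun _ => (1 : ℝ))) μ := fun b hb =>
    (integrable_const 1).indicator (hC b hb)
  have e1 : ∑ a ∈ F, μ.real (B a) = ∫ ω, ∑ a ∈ F, (B a).indicator (fun _ => (1 : ℝ)) ω ∂μ := by
    rw [integral_finsetSum _ iB]
    refine Finset.sum_congr rfl fun a ha => ?_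
    rw [integral_indicator (hB a ha)]
    simp
  have e2 : ∑ b ∈ H, μ.real (C b) = ∫ ω, ∑ b ∈ H, (C b).indicator (fun _ => (1 : ℝ)) ω ∂μ := by
    rw [integral_finsetSum _ iC]
    refine Finset.sum_congr rfl fun a ha => ?_
    rw [integral_indicator (hC a ha)]
    simp
  rw [e1, e2]
  exact integral_mono (integrable_finsetSum _ iB) (integrable_finsetSum _ iC) h

end Pool.Agent.Y641.PL
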